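import Pool.Agent.Lib.MP_edb5be_nt.ND.Iface3

/-!
Project ND, module COMP: comparison principle for the walk.
-/

set_option autoImplicit false

namespace Pool.Agent.Lib.MP_edb5be_nt.ND.H75

open Finset Pool.Agent.Lib.MP_0a5adf_nt.TP

theorem comp_th : 1 < th ∧ th < 2 := by
  unfold th
  constructor
  · rw [Real.lt_logb_iff_rpow_lt (by norm_num) (by norm_num)]; norm_num
  · rw [Real.logb_lt_iff_lt_rpow (by norm_num) (by norm_num)]; norm_num

/-- The tangent inequality for `u ^ (-A)`. -/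
theorem comp_tangent (A : ℕ) {u v : ℝ} (hu : 0 < u) (hv : 0 < v) :
    1 / u ^ A - A / u ^ (A + 1) * (v - u) ≤ 1 / v ^ A := by
  have hs : 0 < u / v := div_pos hu hv
  have h1 : 1 + (A : ℝ) * (u / v - 1) ≤ (1 + (u / v - 1)) ^ A :=
    one_add_mul_le_pow (by linarith) A
  have h2 : 1 - v / u ≤ u / v - 1 := by
    have : 0 ≤ (u - v) ^ 2 / (u * v) := by positivity
    have e : (u - v) ^ 2 / (u * v) = u / v - 1 - (1 - v / u) := by
      field_simp
    linarith
  have h3 : 1 + (A : ℝ) * (1 - v / u) ≤ (u / v) ^ A := by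
    have : (A : ℝ) * (1 - v / u) ≤ A * (u / v - 1) :=
      mul_le_mul_of_nonneg_left h2 (Nat.cast_nonneg A)
    have e : (1 : ℝ) + (u / v - 1) = u / v := by ring
    rw [e] at h1
    linarith
  have h4 : 1 / u ^ A * (1 + (A : ℝ) * (1 - v / u)) ≤ 1 / u ^ A * (u / v) ^ A :=
    mul_le_mul_of_nonneg_left h3 (by positivity)
  have e1 : 1 / u ^ A * (u / v) ^ A = 1 / v ^ A := by
    rw [div_pow]; field_simp
  have e2 : 1 / u ^ A * (1 + (A : ℝ) * (1 - v / u)) =
      1 / u ^ A - A / u ^ (A + 1) * (v - u) := by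
    rw [pow_succ]; field_simp; ring
  rw [e1, e2] at h4
  exact h4

theorem comp : CompStatement := by
  intro A C hA hC
  obtain ⟨ht1, ht2⟩ := comp_th
  have hmu : 0 < mu := by unfold mu; linarith
  have hA' : (0 : ℝ) < A := by exact_mod_cast hA
  refine ⟨C / (A * mu), 1, by positivity, le_rfl, ?_⟩
  intro F M m u₀ hu₀ hM hrec hm
  set K : ℝ := C / (A * mu) with hK
  have hKpos : 0 < K := by positivity
  have hKA : K * (A * mu) = C := by rw [hK]; field_simp
  -- the main inequality
  have main : ∀ η : ℝ, 0 < η → ∀ u, u₀ ≤ u →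
      0 ≤ F u - m + K * (1 / u₀ ^ A - 1 / u ^ A) + η * u := by
    intro η hη u1 hu1
    by_contra hneg
    push Not at hneg
    set q : ℝ → ℝ := fun u => F u - m + K * (1 / u₀ ^ A - 1 / u ^ A) + η * u with hq
    have hmono : ∀ u, u₀ ≤ u → 0 ≤ 1 / u₀ ^ A - 1 / u ^ A := fun u hu => by
      have : 1 / u ^ A ≤ 1 / u₀ ^ A :=
        one_div_le_one_div_of_le (pow_pos (by linarith) _)
          (pow_le_pow_left₀ (by linarith) hu _)
      linarith
    have hbdd : ∀ u, u₀ ≤ u → -M - m ≤ q u := fun u hu => by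
      have h1 := hM u hu
      have h2 := mul_nonneg hKpos.le (hmono u hu)
      have h3 : 0 ≤ η * u := mul_nonneg hη.le (by linarith)
      simp only [hq]
      linarith
    have hbase : ∀ u, u₀ ≤ u → u ≤ u₀ + 1 → 0 ≤ q u := fun u hu hu' => by
      have h1 := hm u hu hu'
      have h2 := mul_nonneg hKpos.le (hmono u hu)
      have h3 : 0 ≤ η * u := mul_nonneg hη.le (by linarith)
      simp only [hq]
      linarith
    have hstep : ∀ u, u₀ + 1 ≤ u → (q (u - 1) + q (u + (th - 1))) / 2 + η * mu ≤ q u := by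
      intro u hu
      have h1 := hrec u hu
      have t1 := comp_tangent A (u := u) (v := u - 1) (by linarith) (by linarith)
      have t2 := comp_tangent A (u := u) (v := u + (th - 1)) (by linarith) (by linarith)
      have t3 : K * (1 / (u - 1) ^ A) + K * (1 / (u + (th - 1)) ^ A) ≥
          2 * (K * (1 / u ^ A)) + 2 * (C / u ^ (A + 1)) := by
        have e : (1 / u ^ A - A / u ^ (A + 1) * (u - 1 - u)) +
            (1 / u ^ A - A / u ^ (A + 1) * (u + (th - 1) - u)) =
            2 * (1 / u ^ A) + 2 * (A * mu / u ^ (A + 1)) := by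
          unfold mu; ring
        have h := mul_le_mul_of_nonneg_left (add_le_add t1 t2) hKpos.le
        rw [e] at h
        have e2 : K * (2 * (1 / u ^ A) + 2 * (A * mu / u ^ (A + 1))) =
            2 * (K * (1 / u ^ A)) + 2 * (C / u ^ (A + 1)) := by
          rw [← hKA]; ring
        linarith [e2]
      have e3 : η * (u - 1) + η * (u + (th - 1)) = 2 * (η * u) - 2 * (η * mu) := by
        unfold mu; ring
      simp only [hq]
      have e4 : ∀ w : ℝ, K * (1 / u₀ ^ A - w) = K * (1 / u₀ ^ A) - K * w := fun w => by ring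
      rw [e4, e4, e4]
      linarith
    -- the infimum
    have hne : (q '' Set.Ici u₀).Nonempty := ⟨q u1, u1, hu1, rfl⟩
    have hbb : BddBelow (q '' Set.Ici u₀) := ⟨-M - m, by
      rintro _ ⟨u, hu, rfl⟩; exact hbdd u hu⟩
    have hI : sInf (q '' Set.Ici u₀) ≤ q u1 := csInf_le hbb ⟨u1, hu1, rfl⟩
    have hI0 : sInf (q '' Set.Ici u₀) < 0 := lt_of_le_of_lt hI hneg
    have hlt : sInf (q '' Set.Ici u₀) < min (sInf (q '' Set.Ici u₀) + η * mu) 0 :=
      lt_min (by have := mul_pos hη hmu; linarith) hI0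
    obtain ⟨_, ⟨u, hu, rfl⟩, hlt2⟩ := exists_lt_of_csInf_lt hne hlt
    have hu' : u₀ ≤ u := hu
    have h5 : q u < 0 := lt_of_lt_of_le hlt2 (min_le_right _ _)
    have h6 : q u < sInf (q '' Set.Ici u₀) + η * mu := lt_of_lt_of_le hlt2 (min_le_left _ _)
    have h7 : u₀ + 1 < u := by
      by_contra hcon
      push Not at hcon
      have := hbase u hu' hcon
      linarith
    have h8 := hstep u h7.le
    have h9 : sInf (q '' Set.Ici u₀) ≤ q (u - 1) :=
      csInf_le hbb ⟨u - 1, by simp only [Set.mem_Ici]; linarith, rfl⟩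
    have h10 : sInf (q '' Set.Ici u₀) ≤ q (u + (th - 1)) :=
      csInf_le hbb ⟨u + (th - 1), by simp only [Set.mem_Ici]; linarith, rfl⟩
    linarith
  intro u hu
  have hlim : 0 ≤ F u - m + K * (1 / u₀ ^ A - 1 / u ^ A) := by
    refine le_of_forall_pos_le_add fun ε hε => ?_
    have hupos : 0 < u := by linarith
    have h := main (ε / u) (by positivity) u hu
    rw [div_mul_cancel₀ _ hupos.ne'] at h
    exact h
  have h1 : 0 ≤ K * (1 / u ^ A) := by
    have : 0 < u := by linarith
    positivity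
  have e : K / u₀ ^ A = K * (1 / u₀ ^ A) := by ring
  rw [e]
  have e4 : K * (1 / u₀ ^ A - 1 / u ^ A) = K * (1 / u₀ ^ A) - K * (1 / u ^ A) := by ring
  linarith

end Pool.Agent.Lib.MP_edb5be_nt.ND.H75
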