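import Pool.Agent.Lib.MP_edb5be_nt.ND.Iface

/-!
Project ND, module COUNT: natural density with a uniform error.
-/

set_option autoImplicit false

namespace Pool.Agent.Lib.MP_edb5be_nt.ND.H75

open Finset Pool.Agent.Lib.MP_0a5adf_nt.TP

/-- Elements of `B` in `[1, 2 ^ y)`. -/
noncomputable def A (B : Set ℕ) (y : ℝ) : ℝ :=
  ({N : ℕ | N ∈ B ∧ 1 ≤ N ∧ (N : ℝ) < 2 ^ y}.ncard : ℝ)

theorem finA (P : Set ℕ) (X : ℝ) : {N : ℕ | N ∈ P ∧ 1 ≤ N ∧ (N : ℝ) ≤ X}.Finite := by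
  apply Set.Finite.subset (Set.finite_Icc 1 ⌊X⌋₊)
  rintro N ⟨_, h1, h2⟩
  exact ⟨h1, Nat.le_floor h2⟩

theorem ncard_le_floor (P : Set ℕ) (X : ℝ) :
    {N : ℕ | N ∈ P ∧ 1 ≤ N ∧ (N : ℝ) ≤ X}.ncard ≤ ⌊X⌋₊ := by
  calc {N : ℕ | N ∈ P ∧ 1 ≤ N ∧ (N : ℝ) ≤ X}.ncard ≤ (Set.Icc 1 ⌊X⌋₊).ncard := by
        apply Set.ncard_le_ncard _ (Set.finite_Icc 1 ⌊X⌋₊)
        rintro N ⟨_, h1, h2⟩
        exact ⟨h1, Nat.le_floor h2⟩
    _ = ⌊X⌋₊ := by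
        rw [← Finset.coe_Icc, Set.ncard_coe_finset, Nat.card_Icc]; omega

theorem A_sub (B : Set ℕ) (y : ℝ) : {N : ℕ | N ∈ B ∧ 1 ≤ N ∧ (N : ℝ) < 2 ^ y} ⊆
    {N : ℕ | N ∈ B ∧ 1 ≤ N ∧ (N : ℝ) ≤ (2 : ℝ) ^ y} :=
  fun _ h => ⟨h.1, h.2.1, h.2.2.le⟩

theorem A_nonneg (B : Set ℕ) (y : ℝ) : 0 ≤ A B y := Nat.cast_nonneg _

theorem A_le (B : Set ℕ) (y : ℝ) : A B y ≤ 2 ^ y := by
  calc A B y ≤ ({N : ℕ | N ∈ B ∧ 1 ≤ N ∧ (N : ℝ) ≤ (2 : ℝ) ^ y}.ncard : ℝ) := by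
        unfold A
        exact_mod_cast Set.ncard_le_ncard (A_sub B y) (finA _ _)
    _ ≤ (⌊(2 : ℝ) ^ y⌋₊ : ℝ) := by exact_mod_cast ncard_le_floor B _
    _ ≤ 2 ^ y := Nat.floor_le (by positivity)

/-- One more dyadic block. -/
theorem A_succ (B : Set ℕ) (y : ℝ) (hy : 0 ≤ y) : A B (y + 1) = A B y + 2 ^ y * Gd B y := by
  have h1 : {N : ℕ | N ∈ B ∧ 1 ≤ N ∧ (N : ℝ) < 2 ^ (y + 1)} =
      {N : ℕ | N ∈ B ∧ 1 ≤ N ∧ (N : ℝ) < 2 ^ y} ∪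
      {N : ℕ | N ∈ B ∧ (2 : ℝ) ^ y ≤ N ∧ (N : ℝ) < 2 ^ (y + 1)} := by
    ext N
    have hle : (2 : ℝ) ^ y ≤ 2 ^ (y + 1) :=
      Real.rpow_le_rpow_of_exponent_le (by norm_num) (by linarith)
    have h1le : (1 : ℝ) ≤ 2 ^ y := Real.one_le_rpow (by norm_num) hy
    simp only [Set.mem_setOf_eq, Set.mem_union]
    constructor
    · rintro ⟨a, b, c⟩
      by_cases h : (N : ℝ) < 2 ^ y
      · exact Or.inl ⟨a, b, h⟩
      · exact Or.inr ⟨a, not_lt.mp h, c⟩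
    · rintro (⟨a, b, c⟩ | ⟨a, b, c⟩)
      · exact ⟨a, b, lt_of_lt_of_le c hle⟩
      · refine ⟨a, ?_, c⟩
        have : (1 : ℝ) ≤ N := le_trans h1le b
        exact_mod_cast this
  have hf1 : {N : ℕ | N ∈ B ∧ 1 ≤ N ∧ (N : ℝ) < 2 ^ y}.Finite := (finA B _).subset (A_sub B y)
  have hf2 : {N : ℕ | N ∈ B ∧ (2 : ℝ) ^ y ≤ N ∧ (N : ℝ) < 2 ^ (y + 1)}.Finite := by
    have : {N : ℕ | N ∈ B ∧ 1 ≤ N ∧ (N : ℝ) < 2 ^ (y + 1)}.Finite :=
      (finA B _).subset (A_sub B (y + 1))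
    apply this.subset
    rw [h1]; exact Set.subset_union_right
  have hd : Disjoint {N : ℕ | N ∈ B ∧ 1 ≤ N ∧ (N : ℝ) < 2 ^ y}
      {N : ℕ | N ∈ B ∧ (2 : ℝ) ^ y ≤ N ∧ (N : ℝ) < 2 ^ (y + 1)} := by
    rw [Set.disjoint_left]
    rintro N ⟨_, _, h⟩ ⟨_, h', _⟩
    linarith
  unfold A Gd
  rw [h1, Set.ncard_union_eq hd hf1 hf2]
  have h2 : (0 : ℝ) < 2 ^ y := by positivity
  push_cast
  field_simp

theorem count (hConv : ConvStatement) : CountStatement := by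
  obtain ⟨C, u₀, hC, hconv⟩ := hConv
  set v : ℝ := max u₀ 1 with hv
  have hv1 : 1 ≤ v := le_max_right _ _
  have hvu : u₀ ≤ v := le_max_left _ _
  refine ⟨3 * C + 2 * 2 ^ v + 1, by positivity, ?_⟩
  intro d B lo hB
  obtain ⟨D, hD0, hD1, hD⟩ := hconv d B lo hB
  refine ⟨D, hD0, hD1, ?_⟩
  set w : ℝ := v + 2 * lo with hw
  have hlo : (0 : ℝ) ≤ lo := Nat.cast_nonneg _
  -- the induction
  have key : ∀ n : ℕ, ∀ y : ℝ, 0 < y → y ≤ w + 1 + n →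
      |A B y - D * 2 ^ y| ≤ 3 * C * (2 ^ y * y ^ (-(1 / 38) : ℝ)) + 2 ^ (w + 1) := by
    intro n
    induction n with
    | zero =>
      intro y hy hyw
      have h2y : (0 : ℝ) < 2 ^ y := by positivity
      have h1 : |A B y - D * 2 ^ y| ≤ 2 ^ y := by
        rw [abs_le]
        have := A_le B y
        have := A_nonneg B y
        constructor <;> nlinarith
      have h2 : (2 : ℝ) ^ y ≤ 2 ^ (w + 1) :=
        Real.rpow_le_rpow_of_exponent_le (by norm_num) (by simpa using hyw)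
      have h3 : 0 ≤ 3 * C * (2 ^ y * y ^ (-(1 / 38) : ℝ)) := by positivity
      linarith
    | succ n ih =>
      intro y hy hyw
      by_cases hc : y ≤ w + 1 + n
      · exact ih y hy hc
      · push Not at hc
        have hn : (0 : ℝ) ≤ n := Nat.cast_nonneg _
        obtain ⟨x, rfl⟩ : ∃ x, y = x + 1 := ⟨y - 1, by ring⟩
        have hxw : w ≤ x := by linarith
        have hx1 : 1 ≤ x := by linarith
        have hx : x ≤ w + 1 + n := by push_cast at hyw; linarith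
        have h1 := ih x (by linarith) hx
        have h2 := hD x (by linarith) (by linarith)
        rw [A_succ B x (by linarith)]
        have h2x : (0 : ℝ) < 2 ^ x := by positivity
        have e1 : (2 : ℝ) ^ (x + 1) = 2 * 2 ^ x := by
          rw [Real.rpow_add (by norm_num), Real.rpow_one]; ring
        have e2 : A B x + 2 ^ x * Gd B x - D * 2 ^ (x + 1) =
            (A B x - D * 2 ^ x) + 2 ^ x * (Gd B x - D) := by rw [e1]; ring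
        rw [e2]
        have h3 : |A B x - D * 2 ^ x + 2 ^ x * (Gd B x - D)| ≤
            (3 * C * (2 ^ x * x ^ (-(1 / 38) : ℝ)) + 2 ^ (w + 1)) +
              2 ^ x * (C * x ^ (-(1 / 38) : ℝ)) := by
          refine le_trans (abs_add_le _ _) ?_
          rw [abs_mul, abs_of_pos h2x]
          exact add_le_add h1 (mul_le_mul_of_nonneg_left h2 h2x.le)
        refine le_trans h3 ?_
        -- (x + 1) ^ (-1/38) ≥ (2/3) x ^ (-1/38)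
        have h4 : (2 / 3 : ℝ) * x ^ (-(1 / 38) : ℝ) ≤ (x + 1) ^ (-(1 / 38) : ℝ) := by
          have h5 : ((3 / 2 : ℝ) ^ (38 : ℕ) * x) ^ (-(1 / 38) : ℝ) ≤
              (x + 1) ^ (-(1 / 38) : ℝ) := by
            apply Real.rpow_le_rpow_of_nonpos (by linarith) _ (by norm_num)
            have : (2 : ℝ) ≤ (3 / 2) ^ (38 : ℕ) := by norm_num
            nlinarith
          have h6 : ((3 / 2 : ℝ) ^ (38 : ℕ) * x) ^ (-(1 / 38) : ℝ) =
              2 / 3 * x ^ (-(1 / 38) : ℝ) := by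
            rw [Real.mul_rpow (by positivity) (by linarith), ← Real.rpow_natCast,
              ← Real.rpow_mul (by norm_num)]
            have : ((38 : ℕ) : ℝ) * (-(1 / 38)) = -1 := by norm_num
            rw [this, Real.rpow_neg_one]
            norm_num
          rwa [h6] at h5
        rw [e1]
        have h7 : 0 < x ^ (-(1 / 38) : ℝ) := by positivity
        have h8 : 2 ^ x * ((2 / 3 : ℝ) * x ^ (-(1 / 38) : ℝ)) ≤
            2 ^ x * (x + 1) ^ (-(1 / 38) : ℝ) := mul_le_mul_of_nonneg_left h4 h2x.le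
        have h9 := mul_le_mul_of_nonneg_left h8 (by positivity : 0 ≤ 6 * C)
        nlinarith
  intro X hX
  have hXpos : 0 < X := by linarith
  set y := Real.logb 2 X with hy
  have h2y : (2 : ℝ) ^ y = X := Real.rpow_logb (by norm_num) (by norm_num) hXpos
  have hlog : 0 < Real.log X := Real.log_pos (by linarith)
  have hlogy : Real.log X ≤ y := by
    rw [hy, Real.logb, le_div_iff₀ (Real.log_pos (by norm_num))]
    have : Real.log 2 ≤ 1 := by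
      have := Real.log_two_lt_d9; linarith
    nlinarith
  have hypos : 0 < y := lt_of_lt_of_le hlog hlogy
  obtain ⟨n, hn⟩ := exists_nat_ge (y - w - 1)
  have hk := key n y hypos (by linarith)
  rw [h2y] at hk
  -- compare the counts
  have hcnt : |({N : ℕ | N ∈ B ∧ 1 ≤ N ∧ (N : ℝ) ≤ X}.ncard : ℝ) - A B y| ≤ 1 := by
    have hsub : {N : ℕ | N ∈ B ∧ 1 ≤ N ∧ (N : ℝ) < 2 ^ y} ⊆
        {N : ℕ | N ∈ B ∧ 1 ≤ N ∧ (N : ℝ) ≤ X} := by
      rw [← h2y]; exact A_sub B y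
    have hle1 : ({N : ℕ | N ∈ B ∧ 1 ≤ N ∧ (N : ℝ) < 2 ^ y}.ncard) ≤
        {N : ℕ | N ∈ B ∧ 1 ≤ N ∧ (N : ℝ) ≤ X}.ncard := Set.ncard_le_ncard hsub (finA _ _)
    have hle2 : {N : ℕ | N ∈ B ∧ 1 ≤ N ∧ (N : ℝ) ≤ X}.ncard ≤
        ({N : ℕ | N ∈ B ∧ 1 ≤ N ∧ (N : ℝ) < 2 ^ y}.ncard) + 1 := by
      have hsub2 : {N : ℕ | N ∈ B ∧ 1 ≤ N ∧ (N : ℝ) ≤ X} ⊆
          insert ⌊X⌋₊ {N : ℕ | N ∈ B ∧ 1 ≤ N ∧ (N : ℝ) < 2 ^ y} := by
        rintro N ⟨a, b, c⟩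
        rcases lt_or_eq_of_le c with h | h
        · exact Or.inr ⟨a, b, by rw [h2y]; exact h⟩
        · left; rw [← h, Nat.floor_natCast]
      exact le_trans (Set.ncard_le_ncard hsub2 (((finA B _).subset hsub).insert _))
        (Set.ncard_insert_le _ _)
    unfold A
    have h1 : (({N : ℕ | N ∈ B ∧ 1 ≤ N ∧ (N : ℝ) < 2 ^ y}.ncard : ℕ) : ℝ) ≤
      (({N : ℕ | N ∈ B ∧ 1 ≤ N ∧ (N : ℝ) ≤ X}.ncard : ℕ) : ℝ) := by exact_mod_cast hle1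
    have h2 : (({N : ℕ | N ∈ B ∧ 1 ≤ N ∧ (N : ℝ) ≤ X}.ncard : ℕ) : ℝ) ≤
      (({N : ℕ | N ∈ B ∧ 1 ≤ N ∧ (N : ℝ) < 2 ^ y}.ncard : ℕ) : ℝ) + 1 := by exact_mod_cast hle2
    rw [abs_le]; constructor <;> linarith
  have htri : |({N : ℕ | N ∈ B ∧ 1 ≤ N ∧ (N : ℝ) ≤ X}.ncard : ℝ) - D * X| ≤
      1 + (3 * C * (X * y ^ (-(1 / 38) : ℝ)) + 2 ^ (w + 1)) := by
    have e : ({N : ℕ | N ∈ B ∧ 1 ≤ N ∧ (N : ℝ) ≤ X}.ncard : ℝ) - D * X =
      (({N : ℕ | N ∈ B ∧ 1 ≤ N ∧ (N : ℝ) ≤ X}.ncard : ℝ) - A B y) + (A B y - D * X) := by ring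
    rw [e]
    exact le_trans (abs_add_le _ _) (add_le_add hcnt hk)
  refine le_trans htri ?_
  have h1 : y ^ (-(1 / 38) : ℝ) ≤ Real.log X ^ (-(1 / 38) : ℝ) :=
    Real.rpow_le_rpow_of_nonpos hlog hlogy (by norm_num)
  have h2 : (2 : ℝ) ^ (w + 1) = 2 * 2 ^ v * 4 ^ lo := by
    rw [hw, Real.rpow_add (by norm_num), Real.rpow_add (by norm_num), Real.rpow_one,
      Real.rpow_mul (by norm_num), Real.rpow_natCast]
    norm_num
    ring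
  have h3 : (1 : ℝ) ≤ 4 ^ lo := one_le_pow₀ (by norm_num)
  have h4 : 0 ≤ Real.log X ^ (-(1 / 38) : ℝ) := by positivity
  have h5 : X * y ^ (-(1 / 38) : ℝ) ≤ X * Real.log X ^ (-(1 / 38) : ℝ) :=
    mul_le_mul_of_nonneg_left h1 hXpos.le
  have h6 : 3 * C * (X * y ^ (-(1 / 38) : ℝ)) ≤ 3 * C * (X * Real.log X ^ (-(1 / 38) : ℝ)) :=
    mul_le_mul_of_nonneg_left h5 (by positivity)
  have h7 : 0 ≤ X * Real.log X ^ (-(1 / 38) : ℝ) := by positivity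
  have h8 : 0 < (2 : ℝ) ^ v := by positivity
  have h9 : (0 : ℝ) < 4 ^ lo := by positivity
  rw [h2]
  have h10 : 0 ≤ C * (4 : ℝ) ^ lo := by positivity
  have h11 : 0 ≤ (2 * 2 ^ v + 1) * (X * Real.log X ^ (-(1 / 38) : ℝ)) := by positivity
  nlinarith

end Pool.Agent.Lib.MP_edb5be_nt.ND.H75
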