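import Pool.Agent.Lib.MP_edb5be_nt.ND.Iface

/-!
Project ND, module RBOUND: bound for `Rm` and tail of the families.
-/

set_option autoImplicit false

namespace Pool.Agent.Lib.MP_edb5be_nt.ND.H75

open Finset Pool.Agent.Lib.MP_0a5adf_nt.TP

theorem f_nonneg (m c : ℕ) (X : ZMod (3 ^ m)) : 0 ≤ f m c X := by
  unfold f; positivity

/-- The weight `g (log_2 M - t)` vanishes outside the block. -/
theorem mem_blk {L : ℝ} {g : ℝ → ℝ} (hg : Bump L g) {t : ℝ} {M : ℕ} (hM : M ∈ upto t)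
    (h : g (Real.logb 2 M - t) ≠ 0) : M ∈ blk ⌊t⌋₊ 2 := by
  have h1 : 0 ≤ Real.logb 2 M - t ∧ Real.logb 2 M - t ≤ 1 := by
    by_contra hc
    exact h (hg.supp _ hc)
  have hM1 : 1 ≤ M := (mem_Icc.mp hM).1
  have hM2 : M ≤ ⌊(2 : ℝ) ^ (t + 1)⌋₊ := (mem_Icc.mp hM).2
  have hMpos : (0 : ℝ) < M := by exact_mod_cast hM1
  have h2 : (M : ℝ) ≤ (2 : ℝ) ^ (t + 1) :=
    le_trans (by exact_mod_cast hM2) (Nat.floor_le (by positivity))
  have h3 : (2 : ℝ) ^ t ≤ M := by
    have : (2 : ℝ) ^ t ≤ 2 ^ (Real.logb 2 M) :=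
      Real.rpow_le_rpow_of_exponent_le (by norm_num) (by linarith [h1.1])
    rwa [Real.rpow_logb (by norm_num) (by norm_num) hMpos] at this
  rw [blk, mem_Ico]
  constructor
  · by_cases ht : 0 ≤ t
    · have : ((2 ^ ⌊t⌋₊ : ℕ) : ℝ) ≤ M := by
        calc ((2 ^ ⌊t⌋₊ : ℕ) : ℝ) = (2 : ℝ) ^ ((⌊t⌋₊ : ℕ) : ℝ) := by
              rw [Real.rpow_natCast]; push_cast; rfl
          _ ≤ (2 : ℝ) ^ t := Real.rpow_le_rpow_of_exponent_le (by norm_num) (Nat.floor_le ht)
          _ ≤ M := h3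
      exact_mod_cast this
    · have : ⌊t⌋₊ = 0 := Nat.floor_of_nonpos (le_of_lt (not_le.mp ht))
      rw [this]; simpa using hM1
  · have : (M : ℝ) < ((2 ^ (⌊t⌋₊ + 2) : ℕ) : ℝ) := by
      calc (M : ℝ) ≤ (2 : ℝ) ^ (t + 1) := h2
        _ < (2 : ℝ) ^ (((⌊t⌋₊ + 2 : ℕ)) : ℝ) := by
            apply Real.rpow_lt_rpow_of_exponent_lt (by norm_num)
            have := Nat.lt_floor_add_one t
            push_cast; linarith
        _ = ((2 ^ (⌊t⌋₊ + 2) : ℕ) : ℝ) := by
            rw [Real.rpow_natCast]; push_cast; rfl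
    exact_mod_cast this

theorem rbound (hPhi : PhiStatement) (hMass : MassStatement) : RBoundStatement := by
  classical
  refine ⟨?_, ?_⟩
  · intro d B g L m c t hg h3
    have hnn : ∀ M : ℕ, 0 ≤ (3 : ℝ) ^ m * f m c ((sg d * M : ℤ) : ZMod (3 ^ m)) :=
      fun M => mul_nonneg (by positivity) (f_nonneg _ _ _)
    have hphi := hPhi.2.1 d m c ⌊t⌋₊ 2 h3
    have key : |Rm d B g m c t| ≤ 2 * ∑ M ∈ blk ⌊t⌋₊ 2,
        1 / (M : ℝ) * (3 ^ m * f m c ((sg d * M : ℤ) : ZMod (3 ^ m))) := by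
      have e1 : |Rm d B g m c t| ≤ ∑ M ∈ (upto t).filter (fun M => M ∈ B),
          |g (Real.logb 2 M - t) / M * (3 ^ m * f m c ((sg d * M : ℤ) : ZMod (3 ^ m)))| := by
        unfold Rm
        have := Finset.abs_sum_le_sum_abs
          (fun M : ℕ => g (Real.logb 2 M - t) / M *
            (3 ^ m * f m c ((sg d * M : ℤ) : ZMod (3 ^ m))))
          ((upto t).filter (fun M => M ∈ B))
        convert this using 2
      refine le_trans e1 ?_
      rw [Finset.mul_sum]
      set A := (upto t).filter (fun M => M ∈ B) with hA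
      have e2 : ∑ M ∈ A,
          |g (Real.logb 2 M - t) / M * (3 ^ m * f m c ((sg d * M : ℤ) : ZMod (3 ^ m)))| =
          ∑ M ∈ A.filter (fun M => M ∈ blk ⌊t⌋₊ 2),
          |g (Real.logb 2 M - t) / M * (3 ^ m * f m c ((sg d * M : ℤ) : ZMod (3 ^ m)))| := by
        symm
        apply Finset.sum_subset (Finset.filter_subset _ _)
        intro M hM hM'
        have hMu : M ∈ upto t := (Finset.mem_filter.mp hM).1
        have : g (Real.logb 2 M - t) = 0 := by
          by_contra hc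
          exact hM' (Finset.mem_filter.mpr ⟨hM, mem_blk hg hMu hc⟩)
        rw [this]; simp
      rw [e2]
      calc ∑ M ∈ A.filter (fun M => M ∈ blk ⌊t⌋₊ 2),
          |g (Real.logb 2 M - t) / M * (3 ^ m * f m c ((sg d * M : ℤ) : ZMod (3 ^ m)))|
          ≤ ∑ M ∈ A.filter (fun M => M ∈ blk ⌊t⌋₊ 2),
            2 * (1 / (M : ℝ) * (3 ^ m * f m c ((sg d * M : ℤ) : ZMod (3 ^ m)))) := by
            apply Finset.sum_le_sum
            intro M _
            rw [abs_mul, abs_div, abs_of_nonneg (hnn M), Nat.abs_cast]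
            have hb := hg.bd (Real.logb 2 M - t)
            have : |g (Real.logb 2 M - t)| / (M : ℝ) ≤ 2 * (1 / (M : ℝ)) := by
              rw [mul_one_div]
              exact div_le_div_of_nonneg_right hb (Nat.cast_nonneg M)
            calc _ ≤ 2 * (1 / (M : ℝ)) * (3 ^ m * f m c ((sg d * M : ℤ) : ZMod (3 ^ m))) :=
                  mul_le_mul_of_nonneg_right this (hnn M)
              _ = _ := by ring
        _ ≤ ∑ M ∈ blk ⌊t⌋₊ 2,
            2 * (1 / (M : ℝ) * (3 ^ m * f m c ((sg d * M : ℤ) : ZMod (3 ^ m)))) := by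
            apply Finset.sum_le_sum_of_subset_of_nonneg
            · intro M hM
              exact (Finset.mem_filter.mp hM).2
            · intro M _ _
              have := hnn M
              positivity
    calc |Rm d B g m c t| ≤ _ := key
      _ ≤ 2 * (((2 : ℕ) : ℝ) + 1) * (((Fam m c).card : ℝ) / 2 ^ c) := by
          rw [mul_assoc]
          exact mul_le_mul_of_nonneg_left hphi (by norm_num)
      _ = 6 * (((Fam m c).card : ℝ) / 2 ^ c) := by push_cast; ring
  · intro m i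
    have hM := hMass.2.2 (3 / 4) m (i + 1) (by norm_num) (by norm_num)
    have h34 : ((3 / 4 : ℝ) / (1 - 3 / 4)) ^ m = 3 ^ m := by norm_num
    rw [h34] at hM
    calc ∑ c ∈ Ioc (4 * m) i, ((Fam m c).card : ℝ) / 2 ^ c
        ≤ ∑ c ∈ Ioc (4 * m) i, (2 / 3 : ℝ) ^ (4 * m) * (((Fam m c).card : ℝ) * (3 / 4) ^ c) := by
          apply Finset.sum_le_sum
          intro c hc
          have hc1 : 4 * m ≤ c := (Finset.mem_Ioc.mp hc).1.le
          have h1 : (1 : ℝ) / 2 ^ c = (2 / 3 : ℝ) ^ c * (3 / 4) ^ c := by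
            rw [← mul_pow, ← one_div_pow]; norm_num
          have h2 : (2 / 3 : ℝ) ^ c ≤ (2 / 3 : ℝ) ^ (4 * m) :=
            pow_le_pow_of_le_one (by norm_num) (by norm_num) hc1
          calc ((Fam m c).card : ℝ) / 2 ^ c = ((Fam m c).card : ℝ) * (1 / 2 ^ c) := by ring
            _ = (2 / 3 : ℝ) ^ c * (((Fam m c).card : ℝ) * (3 / 4) ^ c) := by rw [h1]; ring
            _ ≤ _ := mul_le_mul_of_nonneg_right h2 (by positivity)
      _ = (2 / 3 : ℝ) ^ (4 * m) * ∑ c ∈ Ioc (4 * m) i, ((Fam m c).card : ℝ) * (3 / 4) ^ c := by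
          rw [Finset.mul_sum]
      _ ≤ (2 / 3 : ℝ) ^ (4 * m) * ∑ c ∈ range (i + 1), ((Fam m c).card : ℝ) * (3 / 4) ^ c := by
          apply mul_le_mul_of_nonneg_left _ (by positivity)
          apply Finset.sum_le_sum_of_subset_of_nonneg
          · intro c hc
            rw [Finset.mem_range]
            have := (Finset.mem_Ioc.mp hc).2
            omega
          · intro c _ _; positivity
      _ ≤ (2 / 3 : ℝ) ^ (4 * m) * 3 ^ m := mul_le_mul_of_nonneg_left hM (by positivity)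
      _ = (16 / 27 : ℝ) ^ m := by
          rw [pow_mul, ← mul_pow]; norm_num
      _ ≤ (3 / 5 : ℝ) ^ m := pow_le_pow_left₀ (by norm_num) (by norm_num) m

end Pool.Agent.Lib.MP_edb5be_nt.ND.H75
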