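import Pool.Agent.Lib.MP_edb5be_nt.ND.Iface3
import Pool.Agent.Lib.MP_edb5be_nt.ND.H38.ZDen
import Pool.Agent.Lib.MP_edb5be_nt.ND.H65.Pop
import Pool.Agent.Lib.MP_edb5be_nt.ND.H75.Count

/-!
Project ND, module ZEROZ: invariant sets of density zero on the integers.
-/

set_option autoImplicit false

namespace Pool.Agent.Lib.MP_edb5be_nt.ND.H75

open Finset Pool.Agent.Lib.MP_0a5adf_nt.TP

/-- Counting up to `X` and below `2 ^ (log_2 X)`. -/
theorem count_le_A (B : Set ℕ) {X : ℝ} (hX : 0 < X) :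
    ({N : ℕ | N ∈ B ∧ 1 ≤ N ∧ (N : ℝ) ≤ X}.ncard : ℝ) ≤ A B (Real.logb 2 X) + 1 := by
  set y := Real.logb 2 X with hy
  have h2y : (2 : ℝ) ^ y = X := Real.rpow_logb (by norm_num) (by norm_num) hX
  have hsub : {N : ℕ | N ∈ B ∧ 1 ≤ N ∧ (N : ℝ) < 2 ^ y} ⊆
      {N : ℕ | N ∈ B ∧ 1 ≤ N ∧ (N : ℝ) ≤ X} := by
    rw [← h2y]; exact A_sub B y
  have hle2 : {N : ℕ | N ∈ B ∧ 1 ≤ N ∧ (N : ℝ) ≤ X}.ncard ≤
      ({N : ℕ | N ∈ B ∧ 1 ≤ N ∧ (N : ℝ) < 2 ^ y}.ncard) + 1 := by
    have hsub2 : {N : ℕ | N ∈ B ∧ 1 ≤ N ∧ (N : ℝ) ≤ X} ⊆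
        insert ⌊X⌋₊ {N : ℕ | N ∈ B ∧ 1 ≤ N ∧ (N : ℝ) < 2 ^ y} := by
      rintro N ⟨a, b, c⟩
      rcases lt_or_eq_of_le c with h | h
      · exact Or.inr ⟨a, b, by rw [h2y]; exact h⟩
      · left; rw [← h, Nat.floor_natCast]
    exact le_trans (Set.ncard_le_ncard hsub2 (((finA B _).subset hsub).insert _))
      (Set.ncard_insert_le _ _)
  unfold A
  exact_mod_cast hle2

/-- `(x + 1) ^ A` and `x ^ A`. -/
theorem pow_step (A : ℕ) {x : ℝ} (hx : 0 < x) (hA : 4 * (A : ℝ) ≤ x) :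
    (x + 1) ^ A ≤ 3 / 2 * x ^ A := by
  have h1 : 1 + (A : ℝ) * (-(1 / (x + 1))) ≤ (1 + -(1 / (x + 1))) ^ A := by
    refine one_add_mul_le_pow ?_ A
    have : 1 / (x + 1) ≤ 1 := by rw [div_le_one (by linarith)]; linarith
    linarith
  have h2 : (A : ℝ) * (1 / (x + 1)) ≤ 1 / 4 := by
    rw [mul_one_div, div_le_div_iff₀ (by linarith) (by norm_num)]
    linarith
  have e : (1 : ℝ) + -(1 / (x + 1)) = x / (x + 1) := by field_simp; ring
  rw [e, div_pow] at h1
  have h3 : 3 / 4 ≤ x ^ A / (x + 1) ^ A := by linarith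
  rw [le_div_iff₀ (by positivity)] at h3
  have : 0 ≤ x ^ A := by positivity
  nlinarith

theorem zeroZ (hsand : SandwichStatement) : ZeroZStatement := by
  intro a
  obtain ⟨C, u₀, hC, hs⟩ := hsand a
  set v : ℝ := max u₀ (max 1 (4 * (a : ℝ))) with hv
  have hvu : u₀ ≤ v := le_max_left _ _
  have hv1 : 1 ≤ v := (le_max_left _ _).trans (le_max_right _ _)
  have hva : 4 * (a : ℝ) ≤ v := (le_max_right _ _).trans (le_max_right _ _)
  refine ⟨4 * (3 * C + 2 * 2 ^ v + 1), by positivity, ?_⟩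
  intro d y₀ S D hy hS hdens X hX
  have hy0 : (0 : ℝ) < y₀ := by linarith
  set B : Set ℕ := {n : ℕ | sg d * (n : ℤ) ∈ S} with hB
  set lo : ℕ := ⌈Real.logb 2 y₀⌉₊ with hlo
  have hlog0 : 0 ≤ Real.logb 2 y₀ := Real.logb_nonneg (by norm_num) hy
  have hlo1 : y₀ ≤ 2 ^ lo := by
    have h1 : Real.logb 2 y₀ ≤ lo := Nat.le_ceil _
    have h2 := (Real.logb_le_iff_le_rpow (by norm_num : (1 : ℝ) < 2) hy0).1 h1
    rwa [Real.rpow_natCast] at h2
  have hlo2 : (2 : ℝ) ^ lo ≤ 2 * y₀ := by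
    have h1 : (lo : ℝ) < Real.logb 2 y₀ + 1 := Nat.ceil_lt_add_one hlog0
    have h2 : (2 : ℝ) ^ ((lo : ℕ) : ℝ) ≤ 2 ^ (Real.logb 2 y₀ + 1) :=
      Real.rpow_le_rpow_of_exponent_le (by norm_num) h1.le
    rw [Real.rpow_natCast, Real.rpow_add (by norm_num), Real.rpow_logb (by norm_num) (by norm_num)
      hy0, Real.rpow_one] at h2
    linarith
  have hinv : InvA d B lo := by
    intro n hn
    have h1 : y₀ ≤ |((sg d * (n : ℤ) : ℤ) : ℝ)| := by
      rw [H38.abs_sg]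
      refine hlo1.trans ?_
      exact_mod_cast hn
    have h2 := hS _ h1
    rw [H38.tz_sg] at h2
    exact h2
  have hdN : HasDensN B D := by
    have : (fun X : ℝ => cnt d S X / X) =
        fun X : ℝ => ({N : ℕ | N ∈ B ∧ 1 ≤ N ∧ (N : ℝ) ≤ X}.ncard : ℝ) / X := by
      funext X
      rw [H38.cnt_eq]
    unfold HasDens at hdens
    rw [this] at hdens
    exact hdens
  have hD0 : 0 ≤ D := by
    refine ge_of_tendsto hdens ?_
    filter_upwards [Filter.eventually_gt_atTop (0 : ℝ)] with X hX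
    exact div_nonneg (by unfold cnt; positivity) hX.le
  have hgd := H65.tendsto_gd hdN
  have hlo0 : (0 : ℝ) ≤ lo := Nat.cast_nonneg _
  set w : ℝ := v + 2 * lo with hw
  -- the induction
  have key : ∀ n : ℕ, ∀ y : ℝ, 0 < y → y ≤ w + 1 + n →
      A B y ≤ 2 * D * 2 ^ y + 3 * C * (2 ^ y / y ^ a) + 2 ^ (w + 1) := by
    intro n
    induction n with
    | zero =>
      intro y hy hyw
      have h2y : (0 : ℝ) < 2 ^ y := by positivity
      have h2 : (2 : ℝ) ^ y ≤ 2 ^ (w + 1) :=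
        Real.rpow_le_rpow_of_exponent_le (by norm_num) (by simpa using hyw)
      have h3 : 0 ≤ 3 * C * (2 ^ y / y ^ a) := by positivity
      have h4 : 0 ≤ 2 * D * 2 ^ y := by positivity
      have := A_le B y
      linarith
    | succ n ih =>
      intro y hy hyw
      by_cases hc : y ≤ w + 1 + n
      · exact ih y hy hc
      · push Not at hc
        have hn : (0 : ℝ) ≤ n := Nat.cast_nonneg _
        obtain ⟨x, rfl⟩ : ∃ x, y = x + 1 := ⟨y - 1, by ring⟩
        have hxw : w ≤ x := by linarith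
        have hx1 : 1 ≤ x := by linarith
        have hx0 : 0 < x := by linarith
        have hx : x ≤ w + 1 + n := by push_cast at hyw; linarith
        have h1 := ih x hx0 hx
        have h2 := (hs d B lo D x hinv hgd (by linarith) (by linarith)).2
        rw [A_succ B x (by linarith)]
        have h2x : (0 : ℝ) < 2 ^ x := by positivity
        have e1 : (2 : ℝ) ^ (x + 1) = 2 * 2 ^ x := by
          rw [Real.rpow_add (by norm_num), Real.rpow_one]; ring
        have h3 : 2 ^ x * Gd B x ≤ 2 ^ x * (2 * D + C / x ^ a) :=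
          mul_le_mul_of_nonneg_left h2 h2x.le
        have h4 := pow_step a hx0 (by linarith)
        have hxa : 0 < x ^ a := by positivity
        have hxa1 : 0 < (x + 1) ^ a := by positivity
        have h5 : 2 / 3 * (1 / x ^ a) ≤ 1 / (x + 1) ^ a := by
          rw [le_div_iff₀ hxa1]
          have : 2 / 3 * (1 / x ^ a) * (x + 1) ^ a ≤ 2 / 3 * (1 / x ^ a) * (3 / 2 * x ^ a) :=
            mul_le_mul_of_nonneg_left h4 (by positivity)
          have e : 2 / 3 * (1 / x ^ a) * (3 / 2 * x ^ a) = 1 := by field_simp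
          linarith
        have h6 : 6 * C * 2 ^ x * (2 / 3 * (1 / x ^ a)) ≤ 6 * C * 2 ^ x * (1 / (x + 1) ^ a) :=
          mul_le_mul_of_nonneg_left h5 (by positivity)
        rw [e1]
        have e2 : 3 * C * (2 * 2 ^ x / (x + 1) ^ a) = 6 * C * 2 ^ x * (1 / (x + 1) ^ a) := by
          ring
        have e3 : 3 * C * (2 ^ x / x ^ a) + 2 ^ x * (2 * D + C / x ^ a) =
            2 * D * 2 ^ x + 6 * C * 2 ^ x * (2 / 3 * (1 / x ^ a)) := by ring
        rw [e2]
        linarith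
  have hXpos : 0 < X := by linarith
  set y := Real.logb 2 X with hy'
  have h2y : (2 : ℝ) ^ y = X := Real.rpow_logb (by norm_num) (by norm_num) hXpos
  have hlog : 0 < Real.log X := Real.log_pos (by linarith)
  have hlogy : Real.log X ≤ y := by
    rw [hy', Real.logb, le_div_iff₀ (Real.log_pos (by norm_num))]
    have : Real.log 2 ≤ 1 := by
      have := Real.log_two_lt_d9; linarith
    nlinarith
  have hypos : 0 < y := lt_of_lt_of_le hlog hlogy
  obtain ⟨n, hn⟩ := exists_nat_ge (y - w - 1)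
  have hk := key n y hypos (by linarith)
  rw [h2y] at hk
  have hcnt := count_le_A B hXpos
  rw [← hy'] at hcnt
  have hc : cnt d S X ≤ A B y + 1 := by
    rw [H38.cnt_eq]
    exact hcnt
  have h1 : X / y ^ a ≤ X / Real.log X ^ a :=
    div_le_div_of_nonneg_left hXpos.le (by positivity) (pow_le_pow_left₀ hlog.le hlogy a)
  have h2 : (2 : ℝ) ^ (w + 1) = 2 * 2 ^ v * 4 ^ lo := by
    rw [hw, Real.rpow_add (by norm_num), Real.rpow_add (by norm_num), Real.rpow_one,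
      Real.rpow_mul (by norm_num), Real.rpow_natCast]
    norm_num
    ring
  have h4 : (4 : ℝ) ^ lo ≤ 4 * y₀ ^ 2 := by
    have : (4 : ℝ) ^ lo = (2 ^ lo) ^ 2 := by
      rw [← pow_mul, mul_comm, pow_mul]; norm_num
    rw [this]
    have h5 : (0 : ℝ) ≤ 2 ^ lo := by positivity
    nlinarith
  have h5 : 3 * C * (X / y ^ a) ≤ 3 * C * (X / Real.log X ^ a) :=
    mul_le_mul_of_nonneg_left h1 (by positivity)
  have h6 : 0 ≤ X / Real.log X ^ a := by positivity
  have h7 : 2 * 2 ^ v * 4 ^ lo ≤ 2 * 2 ^ v * (4 * y₀ ^ 2) :=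
    mul_le_mul_of_nonneg_left h4 (by positivity)
  have h8 : 1 ≤ y₀ ^ 2 := one_le_pow₀ hy
  have h9 : 0 ≤ D * X := by positivity
  have h10 : (0 : ℝ) < 2 ^ v := by positivity
  have e : 4 * (3 * C + 2 * 2 ^ v + 1) * (X / Real.log X ^ a + y₀ ^ 2) =
      3 * C * (X / Real.log X ^ a) + 2 * 2 ^ v * (4 * y₀ ^ 2) + 4 * y₀ ^ 2 +
      (9 * C * (X / Real.log X ^ a) + (4 * (2 * 2 ^ v + 1)) * (X / Real.log X ^ a) +
        12 * C * y₀ ^ 2) := by ring
  have h11 : 0 ≤ 9 * C * (X / Real.log X ^ a) + (4 * (2 * 2 ^ v + 1)) * (X / Real.log X ^ a) +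
        12 * C * y₀ ^ 2 := by positivity
  rw [e]
  rw [h2] at hk
  nlinarith

end Pool.Agent.Lib.MP_edb5be_nt.ND.H75
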